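import Pool.Agent.Y194.UF.Ell
import Pool.Agent.W343.BSD.Stmt

/-!
# The analytic rank in the layers of cyclic extensions of function fields

Let `K` be the function field of a curve over the finite field `k` with `q` elements, `q` prime to `6`, and
`E : y² = x³ + a x + b` an elliptic curve over `K` with `L(T, E/K) = (1 - q T)^ρ U(T)`, `U ∈ ℤ[T]`,
`U(1/q) ≠ 0`, so that `ρ` is the analytic rank of `E/K`. (Every `L(T, E/K)` which is a polynomial has this form, by the
lemma of Gauss.) Let `ℓ` be **any** prime not dividing `q` and let `K = F_0 ⊂ F_1 ⊂ ⋯ ⊂ F_n = F` be the layers of **any**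
cyclic extension `F/K` of degree `ℓ^n`, `n` arbitrary, ramified at the places of **any** finite set `S`
(also at places of bad reduction of `E`). Let `w = v_ℓ(q^{deg U} U(1/q) ∏_{v ∈ S} N_v)`, where `N_v` is
the number of points over the residue field of the smooth part of the reduction at `v` of a minimal model of `E`. Then

  for all but at most `w` of the layers `1 ≤ i ≤ n` the orders of vanishing of `L(T, E, χ)` at `T = 1/q` are at most `ρ`
  for all characters `χ` of order `ℓ^i`.

If `ρ = 0` it follows that in all the layers but at most `w` of them `L(T, E/F_i) / L(T, E/F_{i-1})`, which is the product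
of the `L(T, E, χ)` over the `χ` of order `ℓ^i`, does not vanish at `1/q`, so that neither the analytic rank nor
the rank grows from `F_{i-1}` to `F_i` (rank ≤ analytic rank by Tate): the equality of the rank and the
analytic rank holds for the new part (the quotient of the restrictions of scalars of `E` from `F_i` and `F_{i-1}` to `K`).
In general the analytic rank grows by at most `ρ φ(ℓ^i)` in all the layers but at most `w` of them. The number `w`
depends only on `E`, `ℓ` and the numbers of points at the ramified places, but not on `n`.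

Proof. Let `G` be the Galois group and `γ` a generator. The product of the Euler factors
`(1 - a_v [Frob_v] T^{deg v} + q_v [Frob_v]² T^{2 deg v})⁻¹` over `v ∉ S` is a power series over `ℤ[G]` all whose
images under the characters of `G` are polynomials. So its Taylor coefficient of index `ρ` at `1/q`, times
a power of `q`, is `f(γ)` with `f ∈ ℤ[X]`. If the order of vanishing is greater than `ρ` for a
character of order `ℓ^i`, then the cyclotomic polynomial `Φ_{ℓ^i}` divides `f`. Let `m` be the number of
these `i`. Then `∏ Φ_{ℓ^i}(1) = ℓ^m` divides `f(1)`, which is `U(1/q) ∏_{v ∈ S} N_v` up to the sign and powers of `q`.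
-/

set_option autoImplicit false

open Polynomial Pool.Agent.W343.BSD

namespace Pool.Agent.Results.MP_ff7320_nt.CyclicLayers

/-- `Q ^ (deg P) P(1 / Q)` -/
def value (P : ℤ[X]) (Q : ℕ) : ℤ :=
  ∑ n ∈ Finset.range (P.natDegree + 1), P.coeff n * (Q : ℤ) ^ (P.natDegree - n)

section

variable {k K : Type} [Field k] [Field K] [Algebra k K]

open Classical in
/-- The Euler factor of `E` at `v`, twisted by `z`: `1 - a_v z T ^ deg v + q_v z² T ^ (2 deg v)` for good reduction,
`1 - a_v z T ^ deg v` for bad reduction. -/
noncomputable def twistedFactor (a b : K) (v : FF.Place k K) (z : ℂ) : ℂ[X] :=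
  1 - C (S.trace v a b * z) * X ^ S.deg v +
    if v.ord (minDisc v a b) = 0 then C (Nat.card (S.Res v) * z ^ 2) * X ^ (2 * S.deg v) else 0

open Classical in
/-- `L(T, E, χ)`, the product of the inverse Euler factors twisted by `χ(fr v)` over all places `v` of `K` which are
not in the finite set `R`; here `fr v ∈ G` is the Frobenius element of `v` in an abelian extension of `K` with Galois
group `G` which is unramified outside `R` (in the theorem it is an arbitrary element of `G`) and `χ` is a
character of `G`. The Euler factors at the places in `R` do not vanish at `T = 1 / q`. -/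
noncomputable def Ltwist {G : Type} [CommGroup G] (a b : K) (R : Finset (FF.Place k K))
    (fr : FF.Place k K → G) (χ : G →* ℂ) : PowerSeries ℂ :=
  eulerProd (fun v => S.deg v) fun v => if v ∈ R then 1 else
    PowerSeries.invOfUnit (twistedFactor a b v (χ (fr v)) : PowerSeries ℂ) 1

open Classical in
/-- The number of the points over the residue field of the smooth part of the reduction at `v` of a minimal model of `E`:
`q_v + 1 - a_v` for good reduction, `q_v - a_v` for bad reduction. -/
noncomputable def points (a b : K) (v : FF.Place k K) : ℤ :=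
  (Nat.card (S.Res v) : ℤ) - S.trace v a b + if v.ord (minDisc v a b) = 0 then 1 else 0

end

open Classical in
/-- The number of the `i` with `1 ≤ i ≤ n` for which the order of vanishing at `T = 1 / q` of the polynomial `L χ`
is greater than `ρ` for some character `χ` of order `ℓ ^ i`. -/
noncomputable def layers {G : Type} [CommGroup G] (L : (G →* ℂ) → ℂ[X]) (q ρ l n : ℕ) : ℕ :=
  ((Finset.Icc 1 n).filter (fun i => ∃ χ : G →* ℂ, orderOf χ = l ^ i ∧
    ρ < (L χ).rootMultiplicity ((q : ℂ)⁻¹))).card

/-- **Theorem.** Let `K` be the function field of a curve over the finite field `k` with `q` elements, `q` prime to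
`6`, and `E : y ^ 2 = x ^ 3 + a x + b` an elliptic curve over `K` with `L(T, E/K) = (1 - q T) ^ ρ U(T)`,
`U ∈ ℤ[T]`, `U(1 / q) ≠ 0`. Then for all primes `ℓ ∤ q`, all `n`, all finite sets `R` of places of `K`,
all cyclic groups `G` of order `ℓ ^ n` and all families `fr` of elements of `G` for which all the
`L(T, E, χ)` are polynomials: for at most `v_ℓ(q ^ (deg U) U(1 / q) ∏_{v ∈ R} N_v)` of the numbers
`1 ≤ i ≤ n` there is a character `χ` of order `ℓ ^ i` for which `L(T, E, χ)` vanishes at `T = 1 / q` to an order
greater than `ρ`. -/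
theorem result (k K : Type) [Field k] [Finite k] [Field K] [Algebra k K] (hK : IsCurveField k K)
    (h6 : (6 : k) ≠ 0) (a b : K) (hE : 4 * a ^ 3 + 27 * b ^ 2 ≠ 0) (ρ : ℕ) (U : ℤ[X])
    (hL : S.Lfun k a b =
      (((1 - C (Nat.card k : ℤ) * X) ^ ρ * U : ℤ[X]) : PowerSeries ℤ))
    (hU : value U (Nat.card k) ≠ 0) :
    (∀ v : FF.Place k K, 0 < points a b v) ∧
    ∀ (l : ℕ), l.Prime → ¬ l ∣ Nat.card k → ∀ (n : ℕ) (R : Finset (FF.Place k K))
      (G : Type) [CommGroup G] [Finite G], IsCyclic G → Nat.card G = l ^ n →
      ∀ (fr : FF.Place k K → G) (L : (G →* ℂ) → ℂ[X]),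
        (∀ χ, (L χ : PowerSeries ℂ) = Ltwist a b R fr χ) →
        layers L (Nat.card k) ρ l n ≤
          padicValInt l (value U (Nat.card k) * ∏ v ∈ R, points a b v) := by
  classical
  have hFF : FF.IsFF k K := ⟨hK.essFiniteType, hK.trdeg_eq_one⟩
  have hfin : ∀ n : ℕ, {v : FF.Place k K | v.deg ≤ n}.Finite := fun n => places_fin n
  have hd : ∀ v : FF.Place k K, 0 < v.deg := fun v => deg_pos' v
  have hab := ab_of_disc hE
  have hpts : ∀ v : FF.Place k K, points a b v = Pool.Agent.Y194.UF.pts a b v := by
    intro v
    unfold points Pool.Agent.Y194.UF.pts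
    congr 1
    by_cases h : v.ord (minDisc v a b) = 0
    · rw [if_pos h, if_pos ((S.ord_disc_iff v hE).1 h)]
    · rw [if_neg h, if_neg (fun h2 => h ((S.ord_disc_iff v hE).2 h2))]
  have hfac : ∀ (v : FF.Place k K) (z : ℂ), twistedFactor a b v z =
      Pool.Agent.Y194.UF.tw (Pool.Agent.Y194.UF.ellP a b v) z v.deg := by
    intro v z
    unfold twistedFactor Pool.Agent.Y194.UF.tw Pool.Agent.Y194.UF.ellP
    rw [S.deg_eq]
    by_cases h : v.ord (minDisc v a b) = 0
    · rw [if_pos h, if_pos ((S.ord_disc_iff v hE).1 h)]
      simp only [Polynomial.map_add, Polynomial.map_sub, Polynomial.map_one, Polynomial.map_mul,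
        Polynomial.map_pow, Polynomial.map_C, Polynomial.map_X, Polynomial.add_comp,
        Polynomial.sub_comp, Polynomial.one_comp, Polynomial.mul_comp, Polynomial.pow_comp,
        Polynomial.C_comp, Polynomial.X_comp]
      rw [eq_intCast, eq_intCast, Int.cast_natCast, mul_pow, ← Polynomial.C_pow, ← pow_mul,
        mul_comm v.deg 2, Polynomial.C_mul, Polynomial.C_mul]
      have e : S.trace v a b = trace v a b := rfl
      have e2 : Nat.card (S.Res v) = Nat.card v.RF := rfl
      rw [e, e2]
      ring
    · rw [if_neg h, if_neg (fun h2 => h ((S.ord_disc_iff v hE).2 h2))]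
      simp only [Polynomial.map_sub, Polynomial.map_one, Polynomial.map_mul, add_zero,
        Polynomial.map_C, Polynomial.map_X, Polynomial.sub_comp, Polynomial.one_comp,
        Polynomial.mul_comp, Polynomial.C_comp, Polynomial.X_comp]
      rw [eq_intCast, Polynomial.C_mul]
      have e : S.trace v a b = trace v a b := rfl
      rw [e]
      ring
  refine ⟨fun v => by rw [hpts]; exact Pool.Agent.Y194.UF.pts_pos h6 hab v, ?_⟩
  intro l hl hlk n R G _ _ hG hcard fr L hLχ
  have hv := fun v => Pool.Agent.Y194.UF.val_nv (k := k) h6 hab v hl hlk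
  have hLT : ∀ χ, (L χ : PowerSeries ℂ) = Pool.Agent.Y194.UF.LS (fun v : FF.Place k K => v.deg)
      (Pool.Agent.Y194.UF.ellP a b) R fr χ := by
    intro χ
    rw [hLχ]
    unfold Ltwist Pool.Agent.Y194.UF.LS Pool.Agent.Y194.UF.fac
    simp only [S.deg_eq, hfac]
  have hL' := (Pool.Agent.Y194.UF.lfun_eq (k := k) a b).symm.trans ((S.lfun_eq hE).symm.trans hL)
  have h1 := Pool.Agent.Y194.UF.mainLayers hfin hd
    (fun v => Pool.Agent.Y194.UF.ellP_zero a b v) hl hG hlk hL' hU R (fun v _ => (hv v).1) fr L hLT
    ((Finset.Icc 1 n).filter (fun i => ∃ χ : G →* ℂ, orderOf χ = l ^ i ∧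
      ρ < (L χ).rootMultiplicity (((Nat.card k : ℕ) : ℂ)⁻¹))) (by
      intro i hi
      obtain ⟨hi1, χ, hχ, hχ'⟩ := Finset.mem_filter.1 hi
      exact ⟨(Finset.mem_Icc.1 hi1).1, χ, hχ, not_le.2 hχ'⟩)
  have h2 := Pool.Agent.Y194.UF.val_prod R
    (fun v => Pool.Agent.Y194.UF.nv (Pool.Agent.Y194.UF.ellP a b v) (Nat.card k ^ v.deg))
    (points a b) hl (fun v _ => (hv v).1) (fun v _ => by
      rw [hpts]
      exact (Pool.Agent.Y194.UF.pts_pos h6 hab v).ne') (fun v _ => by
      rw [hpts]
      exact (hv v).2) (Pool.Agent.Y194.UF.nv U (Nat.card k)) hU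
  rw [h2] at h1
  exact h1

end Pool.Agent.Results.MP_ff7320_nt.CyclicLayers
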