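import Pool.Agent.Y701.QG.Main

/-!
The elliptic curves `y ^ 2 = F(x, t)` over `k(t)` with `F` of degree three in `x` and at most two in
`t`: their exact `L`-functions, and the order of vanishing over the Galois extensions of `k(t)` of prime
power degree.
-/

set_option autoImplicit false
set_option linter.all false
set_option maxHeartbeats 4000000

open Polynomial FF Module Pool.Agent.W343.BSD

namespace Pool.Agent.Results.MP_ff7320_nt.QuadraticFamilies

section defs

variable {k : Type} [Field k]

/-- The coefficient `a_i(t) = f_i + 2 g_i t + h_i t ^ 2` of `x ^ i` in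
`F(x, t) = f(x) + 2 g(x) t + h(x) t ^ 2`. -/
noncomputable def coef (f g h : k[X]) (i : ℕ) : k[X] :=
  C (f.coeff i) + C (2 * g.coeff i) * X + C (h.coeff i) * X ^ 2

/-- The coefficient `a_1 a_3 - a_2 ^ 2 / 3` of the short form of `y ^ 2 = F(x, t)`. -/
noncomputable def coeffA (f g h : k[X]) : RatFunc k :=
  algebraMap k[X] (RatFunc k) (coef f g h 1 * coef f g h 3 - C (1 / 3) * coef f g h 2 ^ 2)

/-- The coefficient `a_0 a_3 ^ 2 - a_1 a_2 a_3 / 3 + 2 a_2 ^ 3 / 27` of the short form of
`y ^ 2 = F(x, t)`. -/
noncomputable def coeffB (f g h : k[X]) : RatFunc k :=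
  algebraMap k[X] (RatFunc k) (coef f g h 0 * coef f g h 3 ^ 2 -
    C (1 / 3) * (coef f g h 1 * coef f g h 2 * coef f g h 3) + C (2 / 27) * coef f g h 2 ^ 3)

/-- The polynomials `f`, `g`, `h` in `k[x]` have degree at most three, `g ^ 2 ≠ f h`, and
`y ^ 2 = F(x, t)` is an elliptic curve over `k(t)` which is not isomorphic over `k(t)` to a curve
with constant coefficients. -/
structure IsFamily (f g h : k[X]) : Prop where
  degree : f.natDegree ≤ 3 ∧ g.natDegree ≤ 3 ∧ h.natDegree ≤ 3
  delta : g ^ 2 ≠ f * h
  elliptic : 4 * coeffA f g h ^ 3 + 27 * coeffB f g h ^ 2 ≠ 0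
  nonconstant : ∀ (c : RatFunc k) (α β : k), c ≠ 0 →
    ¬ (c ^ 4 * coeffA f g h = algebraMap k (RatFunc k) α ∧
      c ^ 6 * coeffB f g h = algebraMap k (RatFunc k) β)

open Classical in
/-- The quadratic character of `r` modulo the irreducible polynomial `P`. -/
noncomputable def chi (P r : k[X]) : ℤ :=
  if P ∣ r then 0 else if ∃ s : k[X], P ∣ r - s ^ 2 then 1 else -1

open Classical in
/-- The sign `ε_P` of a prime divisor `P` of `g ^ 2 - f h`: the quadratic character of `h` modulo `P`,
or that of `f` if `P` divides `h`. -/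
noncomputable def epsilon (f h P : k[X]) : ℤ :=
  if P ∣ h then chi P f else chi P h

open Classical in
/-- The sign `σ_R` of a prime divisor `R` of the coefficient `a_3(t)` of `x ^ 3`: if the polynomial
`a_2 x ^ 2 + a_1 x + a_0`, to which `F(x, t)` reduces modulo `R`, is a constant `c ≠ 0` times a square,
then it is the quadratic character of `c`, and otherwise it is `0`. -/
noncomputable def sigma (f g h R : k[X]) : ℤ :=
  if R ∣ coef f g h 2 then (if R ∣ coef f g h 1 then chi R (coef f g h 0) else 0)
  else (if R ∣ coef f g h 1 ^ 2 - 4 * coef f g h 0 * coef f g h 2 then chi R (coef f g h 2) else 0)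

open Classical in
/-- The sign `σ_∞` at `t = ∞`: the sign of `t ^ 2 F(x, 1 / t)` at `t = 0` if its coefficient of `x ^ 3`
vanishes there, and otherwise `0`. -/
noncomputable def sigmaInf (f g h : k[X]) : ℤ :=
  if X ∣ coef h g f 3 then sigma h g f X else 0

open Classical in
/-- The set of the monic irreducible divisors of `D ≠ 0`. -/
noncomputable def primes (D : k[X]) : Finset k[X] :=
  (UniqueFactorizationMonoid.normalizedFactors D).toFinset

/-- The multiplicity modulo `ℓ` of the zero `1 / q` of `1 - ε (q T) ^ d`, for `ε` in `{0, 1, -1}`: the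
largest power of `ℓ` dividing `d` if `ε = 1`, or if `ε = -1` and `ℓ = 2`, and `0` otherwise. -/
def mu (ℓ : ℕ) (ε : ℤ) (d : ℕ) : ℕ :=
  if ε = 1 ∨ (ε = -1 ∧ ℓ = 2) then ℓ ^ padicValNat ℓ d else 0

end defs

section places

variable {k K : Type} [Field k] [Field K] [Algebra k K]

/-- The place `w` of `L` lies over the place `v` of `K`, with the ramification index `e`. The fields of
constants `k` and `k'` may be different. -/
def LiesOver {k' L : Type} [Field k'] [Field L] [Algebra k' L] [Algebra K L] (w : Place k' L)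
    (v : Place k K) (e : ℕ) : Prop :=
  0 < e ∧ ∀ f : K, w.ord (algebraMap K L f) = e * v.ord f

open Classical in
/-- The number of the nonsingular points over the residue field of the reduction of
`y ^ 2 = x ^ 3 + a x + b` at `v`, with the point at infinity: `q_v + 1 - a_v` for good and `q_v - a_v`
for bad reduction. -/
noncomputable def points (v : Place k K) (a b : K) : ℤ :=
  (Nat.card (S.Res v) : ℤ) - S.trace v a b + if v.ord (minDisc v a b) = 0 then 1 else 0

/-- The multiplicity of `1 / q` as a zero of the Euler factor of `y ^ 2 = x ^ 3 + a x + b` at `v`,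
modulo `ℓ`. -/
noncomputable def multAt (ℓ : ℕ) [Fact ℓ.Prime] (v : Place k K) (a b : K) : ℕ :=
  ((S.locFactor v a b).map (Int.castRingHom (ZMod ℓ))).rootMultiplicity
    ((Nat.card k : ℕ) : ZMod ℓ)⁻¹

end places

section layer

variable (k k' L : Type) [Field k] [Field k'] [Field L] [Algebra k' L] [Algebra k k']
  [Algebra (RatFunc k) L]

/-- `L` is a Galois extension of `k(t)` of degree a power of `ℓ` with field of constants `k'`; the
places over `v` have the ramification index `e v`, which is `1` outside the finite set `B`. -/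
structure IsLayer (ℓ : ℕ) (e : Place k (RatFunc k) → ℕ) (B : Finset (Place k (RatFunc k))) :
    Prop where
  curve : IsCurveField k' L
  galois : IsGalois (RatFunc k) L
  power : ∃ s : ℕ, finrank (RatFunc k) L = ℓ ^ s
  index : ∀ (v : Place k (RatFunc k)) (w : Place k' L) (n : ℕ), LiesOver w v n → n = e v
  unramified : ∀ v, v ∉ B → e v = 1

end layer

/-- Let `k` be a field with `q` elements, of characteristic at least `5`, and let `E : y ^ 2 = F(x, t)` be an
elliptic curve over `k(t)`, not isomorphic to a constant one, where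
`F(x, t) = f(x) + 2 g(x) t + h(x) t ^ 2` with `f`, `g`, `h` in `k[x]` of degree at most three and
`g ^ 2 ≠ f h`.

(1) The `L`-function of `E` over `k(t)` is the product of `1 - ε_P (q T) ^ (deg P)` over the monic
irreducible divisors `P` of `g ^ 2 - f h` in `k[x]`, divided by `1 - σ_∞ q T` and the product of
`1 - σ_R (q T) ^ (deg R)` over the monic irreducible divisors `R` in `k[t]` of the coefficient of `x ^ 3`
in `F`. In particular the order of vanishing at `T = 1 / q` is the number of `P` with `ε_P = 1` minus
the number of `R`, infinity included, with `σ_R = 1`.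

(2) Let `ℓ` be any prime different from the characteristic and `L` any finite Galois extension of `k(t)` of degree a power of `ℓ`, with
field of constants `k'` and ramification indices `e_v`. If `L(T, E/L)` vanishes to the order `m` at the
central point `T = 1 / |k'|`, then
`[k' : k] m + [L : k(t)] (μ(σ_∞, 1) + ∑_R μ(σ_R, deg R)) ≤ [L : k(t)] ∑_P μ(ε_P, deg P) + R(L)`,
where `R(L)` is the sum over the ramified places of `([L : k(t)] - [L : k(t)] / e_v) m_v` and `m_v` is
the multiplicity of the zero `1 / q` of the Euler factor at `v` modulo `ℓ`. If `ℓ ≥ 7` and `L(T, E)`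
is a polynomial over `k(t)` with a zero of order `ρ` at `1 / q`, then
`[k' : k] m ≤ [L : k(t)] ρ + R(L)`.

(3) If the two sums in (2) are equal (for `ℓ ≥ 7`: if the order over `k(t)` is zero), and for no ramified
place `v` the number of nonsingular points of the reduction of `E` at `v` is divisible by `ℓ`, then the
order over `L` is zero, and if the rank of `E` over `L` is at most the order (Tate), then both are zero:
the conjecture holds for `E` over `L`. -/
theorem result (k : Type) [Field k] [Finite k] (h6 : (6 : k) ≠ 0) (f g h : k[X])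
    (hF : IsFamily f g h) :
    (S.Lfun k (coeffA f g h) (coeffB f g h) *
        (((1 - C (sigmaInf f g h * (Nat.card k : ℤ)) * X) * ∏ R ∈ primes (coef f g h 3),
          (1 - C (sigma f g h R * (Nat.card k : ℤ) ^ R.natDegree) * X ^ R.natDegree) : ℤ[X]) :
            PowerSeries ℤ) =
      ((∏ P ∈ primes (g ^ 2 - f * h),
        (1 - C (epsilon f h P * (Nat.card k : ℤ) ^ P.natDegree) * X ^ P.natDegree) : ℤ[X]) :
          PowerSeries ℤ) ∧
      ∀ ρ : ℕ, Pool.Agent.W313.Gr.HasOrder k (coeffA f g h) (coeffB f g h) ρ →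
        ρ + (if sigmaInf f g h = 1 then 1 else 0) +
          ((primes (coef f g h 3)).filter fun R => sigma f g h R = 1).card =
        ((primes (g ^ 2 - f * h)).filter fun P => epsilon f h P = 1).card) ∧
    ∀ (ℓ : ℕ) [Fact ℓ.Prime], (ℓ : k) ≠ 0 → ∀ (k' L : Type) [Field k'] [Finite k'] [Field L]
      [Algebra k' L] [Algebra k k'] [Algebra k L] [Algebra (RatFunc k) L]
      [IsScalarTower k (RatFunc k) L] [IsScalarTower k k' L] (e : Place k (RatFunc k) → ℕ)
      (B : Finset (Place k (RatFunc k))), IsLayer k k' L ℓ e B →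
      (∀ m : ℕ, S.VanishesTo k' (algebraMap (RatFunc k) L (coeffA f g h))
          (algebraMap (RatFunc k) L (coeffB f g h)) m →
        (finrank k k' * m + finrank (RatFunc k) L * (mu ℓ (sigmaInf f g h) 1 +
            ∑ R ∈ primes (coef f g h 3), mu ℓ (sigma f g h R) R.natDegree) ≤
          finrank (RatFunc k) L *
            ∑ P ∈ primes (g ^ 2 - f * h), mu ℓ (epsilon f h P) P.natDegree +
          ∑ v ∈ B, (finrank (RatFunc k) L - finrank (RatFunc k) L / e v) *
            multAt ℓ v (coeffA f g h) (coeffB f g h)) ∧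
        (7 ≤ ℓ → ∀ ρ : ℕ,
          Pool.Agent.W313.Gr.HasOrder k (coeffA f g h) (coeffB f g h) ρ →
          finrank k k' * m ≤ finrank (RatFunc k) L * ρ +
            ∑ v ∈ B, (finrank (RatFunc k) L - finrank (RatFunc k) L / e v) *
              multAt ℓ v (coeffA f g h) (coeffB f g h))) ∧
      ((∑ P ∈ primes (g ^ 2 - f * h), mu ℓ (epsilon f h P) P.natDegree =
          mu ℓ (sigmaInf f g h) 1 +
            ∑ R ∈ primes (coef f g h 3), mu ℓ (sigma f g h R) R.natDegree ∨
        (7 ≤ ℓ ∧ Pool.Agent.W313.Gr.HasOrder k (coeffA f g h) (coeffB f g h) 0)) →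
        (∀ v, e v ≠ 1 → ¬ (ℓ : ℤ) ∣ points v (coeffA f g h) (coeffB f g h)) →
        ∀ r : ℕ, Pool.Agent.W313.Gr.HasOrder k' (algebraMap (RatFunc k) L (coeffA f g h))
          (algebraMap (RatFunc k) L (coeffB f g h)) r →
          r = 0 ∧ (Pool.Agent.W313.Gr.rank (algebraMap (RatFunc k) L (coeffA f g h))
              (algebraMap (RatFunc k) L (coeffB f g h)) ≤ r →
            Pool.Agent.W313.Gr.rank (algebraMap (RatFunc k) L (coeffA f g h))
              (algebraMap (RatFunc k) L (coeffB f g h)) = r)) := by
  classical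
  letI : Fintype k := Fintype.ofFinite k
  have h2 := Pool.Agent.Y701.QG.two_ne h6
  have hdisc : 4 * Pool.Agent.Y701.QG.PA f g h ^ 3 + 27 * Pool.Agent.Y701.QG.PB f g h ^ 2 ≠ 0 := by
    intro h0
    apply hF.elliptic
    have h1 := Pool.Agent.Y701.QG.A_disc (Pool.Agent.Y701.QG.PA f g h)
      (Pool.Agent.Y701.QG.PB f g h)
    rw [h0] at h1
    exact h1.trans (map_zero (algebraMap k[X] (RatFunc k)))
  have hG : Pool.Agent.Y701.QG.Good f g h :=
    { degf := hF.degree.1
      degg := hF.degree.2.1
      degh := hF.degree.2.2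
      delta := sub_ne_zero.2 hF.delta
      nc := Pool.Agent.Y701.QG.nc_of hdisc hF.nonconstant
      disc := hdisc }
  have hS := Pool.Agent.Y701.QG.mem_primesOf hG.delta
  have hT := Pool.Agent.Y701.QG.mem_primesOf (hG.co3 h6)
  refine ⟨⟨?_, ?_⟩, ?_⟩
  · have h1 := Pool.Agent.Y701.QG.exact_lfun h6 hG hS hT
    rw [← Pool.Agent.Y701.QG.sigInf_eq h2 f g h, ← S.lfun_eq hG.hΔ] at h1
    exact h1
  · intro ρ hρ
    have h1 := Pool.Agent.Y701.QG.order_eq h6 hG hS hT hρ
    rw [← Pool.Agent.Y701.QG.sigInf_eq h2 f g h] at h1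
    exact h1
  · intro ℓ _ hℓ k' L _ _ _ _ _ _ _ _ _ e B hL
    obtain ⟨s, hs⟩ := hL.power
    refine ⟨fun m hm => ⟨?_, fun h7 ρ hρ => ?_⟩, fun h0 hpt r hr => ?_⟩
    · exact Pool.Agent.Y701.QG.final_bound h6 hG hℓ hL.curve hL.galois hs hL.index B
        hL.unramified m hm
    · exact Pool.Agent.Y701.QG.final_large h6 hG h7 hℓ hL.curve hL.galois hs hL.index B
        hL.unramified hρ m hm
    · have hr0 : r = 0 := by
        rcases h0 with h0 | ⟨h7, hρ⟩
        · exact Pool.Agent.Y701.QG.final_zero h6 hG hℓ hL.curve hL.galois hs hL.index B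
            hL.unramified h0 hpt r hr
        · obtain ⟨P, hP, hPr⟩ := hr
          obtain ⟨Q, hQ⟩ := Pool.Agent.TH943.KD.dvd_of_mult (Nat.card_pos (α := k')).ne' hPr
          have h1 := Pool.Agent.Y701.QG.final_large h6 hG h7 hℓ hL.curve hL.galois hs hL.index B
            hL.unramified hρ r ⟨Q, hP.trans (by rw [hQ])⟩
          have h3 : ∑ v ∈ B, (finrank (RatFunc k) L - finrank (RatFunc k) L / e v) *
              Pool.Agent.Y701.QG.multAt ℓ v
                (Pool.Agent.W309.RF.A (Pool.Agent.Y701.QG.PA f g h))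
                (Pool.Agent.W309.RF.A (Pool.Agent.Y701.QG.PB f g h)) = 0 := by
            refine Finset.sum_eq_zero fun v _ => ?_
            by_cases hv : e v = 1
            · rw [hv, Nat.div_one, Nat.sub_self, zero_mul]
            · rw [Pool.Agent.Y701.QG.multAt_zero hℓ hG.hΔ v (hpt v hv), mul_zero]
          rw [h3, mul_zero, add_zero, Nat.le_zero, Nat.mul_eq_zero] at h1
          have i5 : Module.Finite k k' := Module.Finite.of_finite
          exact h1.resolve_left finrank_pos.ne'
      refine ⟨hr0, fun hle => ?_⟩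
      rw [hr0] at hle ⊢
      exact le_antisymm hle (by simp)

end Pool.Agent.Results.MP_ff7320_nt.QuadraticFamilies
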