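import Pool.Agent.Y711.CE2

/-!
# Elliptic curves over `k(t)` with a rational subgroup of order three: the order of vanishing

Let `k` be a finite field of characteristic at least five and `K = k(t)`. In every quadratic class of
polynomials, for at least half of the monic squarefree `D` of degree `2 g + 1` in the class, `g` large,
the following holds for ALL elliptic curves `E` over `K` with a subgroup of order three defined over
`K` whose points have coordinates in `K(√D)`, without any condition on the reduction, and for ALL
finite Galois extensions `L` of `K` of degree a power of three: the order of vanishing of `L(T, E / L)`
at the central point is at most an explicit sum of local terms, which depend only on the reduction of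
`E` and on the ramification of `L`. For `L = K` it is at most `weightSum D E`, where the places of good
or nonsplit multiplicative reduction and the places ramified in `K(√D)` contribute zero, and a place
`v` of split multiplicative reduction contributes the `3`-part of its degree.
-/

set_option autoImplicit false

open Polynomial Pool.Agent.Y711 Pool.Agent.Y711.Ell

namespace Pool.Agent.Results.MP_ff7320_nt.ThreeIsogenyClasses

theorem result (k : Type) [Field k] [Finite k] (h2 : (2 : k) ≠ 0) (h3 : (3 : k) ≠ 0)
    (m n c : k[X]) (hm : m.Monic) (hn : n.Monic) (hs : Squarefree (m * n)) (hc : IsCoprime n c)
    (δ : ℝ) (hδ : δ < 1 / 2) :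
    ∃ N : ℕ, ∀ g ≥ N, δ * (twistClass g m n c).ncard ≤ (goodFor g m n c).ncard :=
  ell_bound h2 h3 hm hn hs hc hδ

end Pool.Agent.Results.MP_ff7320_nt.ThreeIsogenyClasses
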