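import Pool.Agent.Y701.R5.Tow3

/-!
Rank equals order of vanishing, unbounded in the tower, for pullbacks of a universal curve with a point
of order three to arbitrary function fields.
-/

set_option autoImplicit false
set_option linter.all false
set_option maxHeartbeats 4000000

open Polynomial FF Module Pool.Agent.W343.BSD

namespace Pool.Agent.Results.MP_ff7320_nt.ThreeTorsionTowersEveryBase

/-- The set contains a positive proportion of the primes: there is a constant `c > 0` such that for all
large `N` at least `c π(N)` of the primes up to `N` are in the set. -/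
def PositiveDensity (A : Set ℕ) : Prop :=
  ∃ c : ℝ, 0 < c ∧ ∃ N₀ : ℕ, ∀ N : ℕ, N₀ ≤ N →
    c * Nat.primeCounting N ≤ Set.ncard {p : ℕ | p ≤ N ∧ p.Prime ∧ p ∈ A}

/-- The function `h` has exactly one zero, which is at a rational place, and the orders of all poles of
`h` are prime to three. -/
structure Conditions (k : Type) {K : Type} [Field k] [Field K] [Algebra k K] (h : K) : Prop where
  zero : ∃ v : Place k K, 0 < v.ord h ∧ S.deg v = 1 ∧ ∀ w : Place k K, 0 < w.ord h → w = v
  pole : ∀ w : Place k K, w.ord h < 0 → ¬ (3 : ℤ) ∣ w.ord h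

/-- The prime `ℓ` is odd, `c ℓ` divides `p ^ ν + 1` for some `ν` with `p ^ ν` congruent to `1` modulo
`3`, and `ℓ` divides none of the values `G(q ^ i)`. -/
def IsGoodPrime (p c q : ℕ) (G : ℤ[X]) (ℓ : ℕ) : Prop :=
  ℓ.Prime ∧ ℓ ≠ 2 ∧ (∃ ν : ℕ, c * ℓ ∣ p ^ ν + 1 ∧ p ^ ν % 3 = 1) ∧
    ∀ i : ℕ, ¬ (ℓ : ℤ) ∣ G.eval ((q : ℤ) ^ i)

/-- The first coefficient of `E_h`. -/
def coeffA {K : Type} [Field K] (c : ℕ) (h : K) : K := -(24 * h ^ c + 3)

/-- The second coefficient of `E_h`. -/
def coeffB {K : Type} [Field K] (c : ℕ) (h : K) : K := 16 * (h ^ c) ^ 2 + 40 * h ^ c - 2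

/-- The curve `E_h : y ^ 2 = x ^ 3 + (3 x + 4 (1 - h ^ c)) ^ 2`, in short form
`y ^ 2 = x ^ 3 + a x + b` (with `x` replaced by `x - 3`). -/
def curve {K : Type} [Field K] (c : ℕ) (h : K) : WeierstrassCurve K :=
  ⟨0, 0, 0, coeffA c h, coeffB c h⟩

open Classical in
/-- `E_h` has `ρ` linearly independent points over `K`, and its `L`-function vanishes at `T = 1 / |k|`
to order at most `ρ`: if it is `(1 - |k| T) ^ M G(T)` with `G` in `ℤ[T]`, then `M ≤ ρ`. If it is a
polynomial with order of vanishing `r` and the rank is at most `r`, then the rank and `r` are equal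
to `ρ`. -/
def RankAndOrder (k : Type) {K : Type} [Field k] [Finite k] [Field K] [Algebra k K] (ρ c : ℕ)
    (h : K) : Prop :=
  (∃ P : Fin ρ → (curve c h).toAffine.Point, LinearIndependent ℤ P) ∧
  (∀ M : ℕ, S.VanishesTo k (coeffA c h) (coeffB c h) M → M ≤ ρ) ∧
  ∀ r : ℕ, Pool.Agent.W313.Gr.HasOrder k (coeffA c h) (coeffB c h) r →
    Module.rank ℤ (curve c h).toAffine.Point ≤ r →
      r = ρ ∧ Module.rank ℤ (curve c h).toAffine.Point = ρ

section layer

variable (k : Type) {K : Type} (k' K' k'' L : Type) [Field k] [Finite k] [Field K] [Algebra k K]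
  [Field k'] [Field K'] [Algebra k' K'] [Algebra k k'] [Algebra K K'] [Field k''] [Field L]
  [Algebra k'' L] [Algebra k' k''] [Algebra K' L]

/-- `K'` is the constant extension of `K` with the field of constants `k' = k(μ_ℓ)`, whose degree over
`k` is the order of `q = |k|` modulo `ℓ`, and `L` is generated over `K'` by `k''` and a root
`h ^ (1 / ℓ ^ n)`, where the field of constants `k''` contains the primitive roots of unity of order
`c ℓ ^ n` and has degree a power of `ℓ` over `k'`. -/
structure IsLayer (c ℓ n : ℕ) (h : K) : Prop where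
  curve : IsCurveField k' K'
  constants : finrank K K' = finrank k k'
  degree : finrank k k' = orderOf ((Nat.card k : ℕ) : ZMod ℓ)
  curveTop : IsCurveField k'' L
  power : ∃ s : ℕ, finrank k' k'' = ℓ ^ s
  unity : ∃ ζ : k'', IsPrimitiveRoot ζ (c * ℓ ^ n)
  root : ∃ u : L, u ^ ℓ ^ n = algebraMap K' L (algebraMap K K' h) ∧
    IntermediateField.adjoin K' ({u} ∪ Set.range (algebraMap k'' L)) = ⊤

end layer

/-- Let `K` be the function field of a curve over the field `k` with `q` elements, of characteristic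
`p ≥ 5`, let `h` in `K` have exactly one zero, at a rational place, and poles of orders prime to
three, and let `E : y ^ 2 = x ^ 3 + (3 x + 4 (1 - h ^ c)) ^ 2`, a curve with a point of order three,
`c ≥ 1`, with `L(T, E/K) = (1 - q T) ^ (c - 1) G(T)` (for `c = 1` this is `G(T)`).

(1) For all odd primes `ℓ` such that `c ℓ` divides a number `p ^ ν + 1` with `p ^ ν` congruent to `1`
modulo `3` and `ℓ` does not divide the values `G(q ^ i)`, and for all `n ≥ 1`, over the layers `L` of
the tower, which are the fields `K(μ, h ^ (1 / ℓ ^ n))`, `E` has at least `c ℓ ^ n - 1` independent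
points and the order of vanishing of `L(T, E/L)` at the central point is at most `c ℓ ^ n - 1`; if the
rank is at most the order (Tate), both are equal to `c ℓ ^ n - 1`, which tends to infinity with `n`.

(2) If `p` is congruent to `1` modulo `3`, `q` is a square, `c` divides `p ^ ν + 1` for some odd `ν`,
`G` has no positive real zero and the square root of `p` is not in the field generated by `i` and the
square roots of the zeros of `G`, then a positive proportion of all primes `ℓ` have the properties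
in (1). -/
theorem result (p : ℕ) [Fact p.Prime] (hp : 5 ≤ p) (k K : Type) [Field k] [Finite k] [CharP k p]
    [Field K] [Algebra k K] (hK : IsCurveField k K) (c : ℕ) (hc : c ≠ 0) (h : K)
    (hh : Conditions k h) (G : ℤ[X])
    (hL : S.Lfun k (coeffA c h) (coeffB c h) =
      (((1 - C (Nat.card k : ℤ) * X) ^ (c - 1) * G : ℤ[X]) : PowerSeries ℤ)) :
    (∀ ℓ : ℕ, IsGoodPrime p c (Nat.card k) G ℓ → ∀ n : ℕ, n ≠ 0 → ∀ (k' K' k'' L : Type) [Field k']
      [Finite k'] [Field K'] [Algebra k' K'] [Algebra k k'] [Algebra k K'] [Algebra K K']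
      [IsScalarTower k K K'] [IsScalarTower k k' K'] [Field k''] [Finite k''] [Field L]
      [Algebra k'' L] [Algebra k' k''] [Algebra k' L] [Algebra K' L] [IsScalarTower k' K' L]
      [IsScalarTower k' k'' L], IsLayer k k' K' k'' L c ℓ n h →
        RankAndOrder k'' (c * ℓ ^ n - 1) c (algebraMap K' L (algebraMap K K' h))) ∧
    (p % 3 = 1 → IsSquare (Nat.card k) → (∃ ν : ℕ, Odd ν ∧ c ∣ p ^ ν + 1) →
      (∀ x : ℝ, 0 < x → aeval x G ≠ 0) → (∀ s : ℂ, s ^ 2 = (p : ℂ) →
        s ∉ IntermediateField.adjoin ℚ ({z : ℂ | aeval (z ^ 2) G = 0} ∪ {Complex.I})) →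
      PositiveDensity {ℓ : ℕ | IsGoodPrime p c (Nat.card k) G ℓ}) := by
  classical
  have hFF : FF.IsFF k K := ⟨hK.essFiniteType, hK.trdeg_eq_one⟩
  have h6 : (6 : k) ≠ 0 := Pool.Agent.TH958.T4.six_ne (Fact.out : p.Prime) hp
  refine ⟨?_, ?_⟩
  · rintro ℓ ⟨hℓ, hℓ2, hν, hG⟩ n hn k' K' k'' L _ _ _ _ _ _ _ _ _ _ _ _ _ _ _ _ _ _ hlay
    have i1 : Module.Finite k k' := Module.Finite.of_finite
    have i2 : FiniteDimensional K K' := Module.finite_of_finrank_pos (by
      rw [hlay.constants]; exact finrank_pos)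
    obtain ⟨ζ, hζ⟩ := hlay.unity
    obtain ⟨u, hu, hgen⟩ := hlay.root
    obtain ⟨t1, t2⟩ := Pool.Agent.Y701.R5.tower3 (k := k) (K := K) (k' := k') (K' := K')
      (k'' := k'') (L := L) h6 hK hc ⟨hh.zero, hh.pole⟩ hL hℓ hℓ2 hν hG n hn hlay.curve
      hlay.constants hlay.degree hlay.curveTop hlay.power hζ hu hgen
    have ga : algebraMap K' L (algebraMap K K' (Pool.Agent.TH958.T6.aS c h)) =
        coeffA c (algebraMap K' L (algebraMap K K' h)) := by
      unfold Pool.Agent.TH958.T6.aS coeffA
      simp only [map_sub, map_add, map_mul, map_pow, map_neg, map_ofNat, map_one]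
    have gb : algebraMap K' L (algebraMap K K' (Pool.Agent.TH958.T6.bS c h)) =
        coeffB c (algebraMap K' L (algebraMap K K' h)) := by
      unfold Pool.Agent.TH958.T6.bS coeffB
      simp only [map_sub, map_add, map_mul, map_pow, map_neg, map_ofNat, map_one]
    rw [ga, gb] at t1 t2
    exact ⟨t1, t2, fun r hr hle => Pool.Agent.TH958.T5.equalities t1 t2 r hr hle⟩
  · intro hp3 hsq hν hreal hsp
    obtain ⟨v0, hv0, -, -⟩ := hh.zero
    have hv0c : 0 < v0.ord (h ^ c) := by
      rw [v0.ord_pow]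
      exact mul_pos (by exact_mod_cast Nat.pos_of_ne_zero hc) hv0
    have hΔ := (Pool.Agent.Y701.R5.ords3_pos h6 hv0c).2.2.1
    have hG0 : G.coeff 0 ≠ 0 := by
      have h4 := Pool.Agent.W313.Gr.unit_coeff (k := k) hΔ
      have hL' : S.Lfun k (Pool.Agent.TH958.T6.aS c h) (Pool.Agent.TH958.T6.bS c h) =
        (((1 - C (Nat.card k : ℤ) * X) ^ (c - 1) * G : ℤ[X]) : PowerSeries ℤ) := hL
      rw [hL', ← PowerSeries.coeff_zero_eq_constantCoeff_apply, Polynomial.coeff_coe,
        mul_coeff_zero] at h4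
      exact right_ne_zero_of_mul h4.ne_zero
    exact Pool.Agent.Y701.R5.dens3 (Fact.out : p.Prime) hp3 hsq hc hν hG0 hreal hsp

end Pool.Agent.Results.MP_ff7320_nt.ThreeTorsionTowersEveryBase
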